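import Pool.Agent.ACK.StmtsD

/-!
# ACK, row ILM: renaming and interlacement
-/

set_option autoImplicit false

namespace Pool.Agent.ACK.H77

open Pool.Agent.ACK Pool.Agent.ACK.D

/-- a map which is injective on the letters is injective on the words -/
theorem map_inj {l : List ℕ} {f : ℕ → ℕ} (h : Set.InjOn f {x | x ∈ l}) : ∀ a b : List ℕ,
    (∀ z ∈ a, z ∈ l) → (∀ z ∈ b, z ∈ l) → a.map f = b.map f → a = b := by
  intro a
  induction a with
  | nil =>
    intro b _ _ hab
    cases b with
    | nil => rfl
    | cons c b => exact absurd hab (by simp)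
  | cons d a ih =>
    intro b ha hb hab
    cases b with
    | nil => exact absurd hab (by simp)
    | cons c b =>
      rw [List.map_cons, List.map_cons, List.cons.injEq] at hab
      have h1 : d = c := h (ha d List.mem_cons_self) (hb c List.mem_cons_self) hab.1
      have h2 := ih b (fun z hz => ha z (List.mem_cons_of_mem _ hz))
        (fun z hz => hb z (List.mem_cons_of_mem _ hz)) hab.2
      rw [h1, h2]

/-- the filter of the image -/
theorem fl_map {l : List ℕ} {f : ℕ → ℕ} (h : Set.InjOn f {x | x ∈ l}) {x y : ℕ} (hx : x ∈ l)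
    (hy : y ∈ l) : fl (l.map f) (f x) (f y) = (fl l x y).map f := by
  unfold fl
  rw [List.filter_map]
  congr 1
  refine List.filter_congr fun z hz => ?_
  show decide (f z = f x ∨ f z = f y) = decide (z = x ∨ z = y)
  have h1 : (f z = f x) ↔ (z = x) := ⟨fun e => h hz hx e, fun e => by rw [e]⟩
  have h2 : (f z = f y) ↔ (z = y) := ⟨fun e => h hz hy e, fun e => by rw [e]⟩
  exact decide_eq_decide.2 (or_congr h1 h2)

/-- **ILM** -/
theorem ilm : IlmStmt := by
  intro l f h x hx y hy
  unfold Il
  rw [fl_map h hx hy]
  have hne : f x ≠ f y ↔ x ≠ y := not_congr ⟨fun e => h hx hy e, fun e => by rw [e]⟩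
  have hm : ∀ z ∈ fl l x y, z ∈ l := fun z hz => (List.mem_filter.1 hz).1
  have h4 : ∀ a b : ℕ, a ∈ l → b ∈ l → ((fl l x y).map f = [f a, f b, f a, f b] ↔
      fl l x y = [a, b, a, b]) := by
    intro a b ha hb
    constructor
    · intro e
      refine map_inj h _ _ hm ?_ e
      intro z hz
      simp only [List.mem_cons, List.not_mem_nil, or_false] at hz
      rcases hz with rfl | rfl | rfl | rfl
      · exact ha
      · exact hb
      · exact ha
      · exact hb
    · intro e
      rw [e]
      rfl
  rw [hne, h4 x y hx hy, h4 y x hy hx]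

end Pool.Agent.ACK.H77
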