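import Pool.Agent.ACK.StmtsB

/-!
# ACK, row MON: small circles are faces
-/

set_option autoImplicit false

namespace Pool.Agent.ACK.H77

open Pool.Agent.ACK Pool.Agent.ACK.B

/-- **MON** -/
theorem mon (hGFW : GfwStmt) (hPRW : PrwStmt) (hNLP : NlpStmt) (hCRC : CrcStmt)
    (hMNE : MneStmt) : Pool.Agent.ACK.MonStmt := by
  intro c l s hc hk hsm
  have h1 : 1 ≤ c := by omega
  have hne : NeZero (2 * c) := ⟨by omega⟩
  have hg : Gf (wd c l) := hGFW c l h1 hk.len hk.gw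
  have hp : PrF (wd c l) := hPRW c l hk h1
  have hn : ∀ i, wd c l i ≠ wd c l (i + 1) := hNLP (2 * c) (wd c l) (by omega) hg hp
  obtain ⟨s0, h0⟩ := hk.pl
  have hm := hMNE c (wd c l) s s0 h1 hg hp hn h0 hsm
  have hk' : ∀ k : ℕ, (s (wd c l ((k : ℕ) : ZMod (2 * c))) = s0 (wd c l ((k : ℕ) : ZMod (2 * c)))) ↔
      (s (wd c l 0) = s0 (wd c l 0)) := by
    intro k
    induction k with
    | zero => rw [Nat.cast_zero]
    | succ k ih => rw [Nat.cast_succ, ← hm, ih]
  have hall : ∀ p, (s (wd c l p) = s0 (wd c l p)) ↔ (s (wd c l 0) = s0 (wd c l 0)) := by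
    intro p
    have h2 := hk' p.val
    rw [ZMod.natCast_zmod_val p] at h2
    exact h2
  by_cases h : s (wd c l 0) = s0 (wd c l 0)
  · have e := (hCRC (2 * c) (wd c l) s s0).2.2.1 (fun i => (hall i).2 h)
    rw [e.2.1, e.2.2, h0]
  · have e := (hCRC (2 * c) (wd c l) s (op s0)).2.2.1 (fun i => by
      have h3 : s (wd c l i) ≠ s0 (wd c l i) := fun h4 => h ((hall i).1 h4)
      show s (wd c l i) = !(s0 (wd c l i))
      exact Bool.eq_not.2 h3)
    rw [e.2.1, e.2.2, (hCRC (2 * c) (wd c l) s0 s0).2.2.2, add_comm]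
    exact h0

end Pool.Agent.ACK.H77
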