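import Pool.Agent.ACK.StmtsA

/-!
# ACK, row NLP: no loops
-/

set_option autoImplicit false

namespace Pool.Agent.ACK.H77

open Pool.Agent.ACK

theorem one_ne {n : ℕ} (h : 3 ≤ n) : (1 : ZMod n) ≠ 0 := by
  intro e
  have e' : ((1 : ℕ) : ZMod n) = 0 := by rw [Nat.cast_one]; exact e
  have := Nat.le_of_dvd (by omega) ((ZMod.natCast_eq_zero_iff 1 n).1 e')
  omega

theorem two_ne {n : ℕ} (h : 3 ≤ n) : (1 : ZMod n) + 1 ≠ 0 := by
  intro e
  have e' : ((2 : ℕ) : ZMod n) = 0 := by
    have : ((2 : ℕ) : ZMod n) = 1 + 1 := by push_cast; ring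
    rw [this]; exact e
  have := Nat.le_of_dvd (by omega) ((ZMod.natCast_eq_zero_iff 2 n).1 e')
  omega

/-- **NLP** -/
theorem nlp : NlpStmt := by
  intro n _ w hn hg hp i hi
  classical
  have h1 := one_ne hn
  have h2 := two_ne hn
  have n1 : i + 1 ≠ i := fun e => h1 (by
    have : i + 1 - i = 0 := by rw [e, sub_self]
    rwa [add_sub_cancel_left] at this)
  have n2 : i - 1 ≠ i := fun e => h1 (by
    have : i - (i - 1) = 0 := by rw [e, sub_self]
    rwa [sub_sub_cancel] at this)
  have n3 : i - 1 ≠ i + 1 := fun e => h2 (by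
    have : i + 1 - (i - 1) = 0 := by rw [e, sub_self]
    have e2 : i + 1 - (i - 1) = 1 + 1 := by ring
    rwa [e2] at this)
  have hiff : ∀ a, w a = w i ↔ a = i ∨ a = i + 1 := by
    intro a
    constructor
    · intro ha
      obtain ⟨j, _, _, hj⟩ := hg i
      have h3 : i + 1 = j := by
        rcases hj (i + 1) hi.symm with h | h
        · exact absurd h n1
        · exact h
      rw [h3]
      exact hj a ha
    · rintro (h | h)
      · rw [h]
      · rw [h]; exact hi.symm
  refine hp (fun a => if w a = w i then 1 else 0) ?_ (i - 1) (i + 1) n3 ?_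
  · intro a b hab
    show (if w a = w i then (1 : ZMod 2) else 0) = if w b = w i then 1 else 0
    rw [hab]
  · intro j
    show (if w j = w i then (1 : ZMod 2) else 0) + (if w (j + 1) = w i then 1 else 0) =
      if j = i - 1 ∨ j = i + 1 then 1 else 0
    have e1 : (j + 1 = i) ↔ (j = i - 1) := ⟨fun h => by rw [← h]; ring, fun h => by rw [h]; ring⟩
    have e2 : (j + 1 = i + 1) ↔ (j = i) := ⟨fun h => add_right_cancel h, fun h => by rw [h]⟩
    have k1 : (w (j + 1) = w i) ↔ (j = i - 1 ∨ j = i) := by rw [hiff, e1, e2]
    by_cases c1 : j = i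
    · have a1 : w j = w i := by rw [c1]
      have a2 : w (j + 1) = w i := k1.2 (Or.inr c1)
      have a3 : ¬ (j = i - 1 ∨ j = i + 1) := by
        rintro (h | h)
        · exact n2 (by rw [← h, c1])
        · exact n1 (by rw [← h, c1])
      rw [if_pos a1, if_pos a2, if_neg a3]
      decide
    · by_cases c2 : j = i - 1
      · have a1 : ¬ w j = w i := by
          rw [hiff]
          rintro (h | h)
          · exact c1 h
          · exact n3 (by rw [← h, c2])
        rw [if_neg a1, if_pos (k1.2 (Or.inl c2)), if_pos (Or.inl c2), zero_add]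
      · have a2 : ¬ w (j + 1) = w i := fun h => by
          rcases k1.1 h with h | h
          · exact c2 h
          · exact c1 h
        by_cases c3 : j = i + 1
        · rw [if_pos ((hiff j).2 (Or.inr c3)), if_neg a2, if_pos (Or.inr c3), add_zero]
        · have a1 : ¬ w j = w i := fun h => by
            rcases (hiff j).1 h with h | h
            · exact c1 h
            · exact c3 h
          have a3 : ¬ (j = i - 1 ∨ j = i + 1) := fun h => by
            rcases h with h | h
            · exact c2 h
            · exact c3 h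
          rw [if_neg a1, if_neg a2, if_neg a3, add_zero]

end Pool.Agent.ACK.H77
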