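import Pool.Agent.ACK.StmtsC

/-!
# ACK, row PRM: no closed proper interval
-/

set_option autoImplicit false

namespace Pool.Agent.ACK.H77

open Pool.Agent.ACK Pool.Agent.ACK.C

theorem cnt_eq (e : ℕ) (l : List Tk) : cnt e l = (l.map Prod.fst).count e := by
  induction l with
  | nil => rfl
  | cons t r ih =>
    rw [List.map_cons, List.count_cons]
    show (bif t.1 == e then cnt e r + 1 else cnt e r) = _
    rw [ih]
    by_cases h : t.1 = e
    · rw [h]
      simp
    · have h1 : (t.1 == e) = false := beq_false_of_ne h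
      rw [h1]
      simp

theorem mem_bk {C : ℕ → List ℕ} {t : Tk} {x : ℕ} : x ∈ bk C t ↔ x ∈ C t.1 := by
  unfold bk
  split_ifs
  · exact List.mem_reverse
  · exact Iff.rfl

theorem mem_BL {C : ℕ → List ℕ} {b : List Tk} {x : ℕ} :
    x ∈ BL C b ↔ ∃ t ∈ b, x ∈ C t.1 := by
  unfold BL
  rw [List.mem_flatMap]
  exact ⟨fun ⟨t, ht, hx⟩ => ⟨t, ht, mem_bk.1 hx⟩, fun ⟨t, ht, hx⟩ => ⟨t, ht, mem_bk.2 hx⟩⟩

theorem BL_ne {C : ℕ → List ℕ} {b : List Tk} {t : Tk} (ht : t ∈ b) (hC : C t.1 ≠ []) :
    BL C b ≠ [] := by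
  obtain ⟨x, hx⟩ := List.exists_mem_of_ne_nil _ hC
  exact List.ne_nil_of_mem (mem_BL.2 ⟨t, ht, hx⟩)

theorem BL_append (C : ℕ → List ℕ) (a b : List Tk) : BL C (a ++ b) = BL C a ++ BL C b := by
  unfold BL
  exact List.flatMap_append

/-- **PRM** -/
theorem prm (_hCWG : CwgStmt) : PrmStmt := by
  intro c C b s hS
  have hcw := hS.cw
  by_contra hcon
  rw [Bool.not_eq_false] at hcon
  unfold npr at hcon
  rw [List.any_eq_true] at hcon
  obtain ⟨i, hi, h1⟩ := hcon
  rw [List.any_eq_true] at h1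
  obtain ⟨m, hm, h2⟩ := h1
  rw [Bool.and_eq_true] at h2
  obtain ⟨h3, h4⟩ := h2
  rw [List.mem_range] at hi hm
  have h5 : i + m + 1 ≤ 12 := Nat.le_of_ble_eq_true h3
  have hlen : b.reverse.length = 12 := by rw [List.length_reverse, hS.len]
  obtain ⟨P, hP⟩ : ∃ P, P = b.reverse.take i := ⟨_, rfl⟩
  obtain ⟨M, hM⟩ : ∃ M, M = (b.reverse.drop i).take (m + 1) := ⟨_, rfl⟩
  obtain ⟨Q, hQ⟩ : ∃ Q, Q = (b.reverse.drop i).drop (m + 1) := ⟨_, rfl⟩
  have hr : b.reverse = P ++ (M ++ Q) := by
    rw [hP, hM, hQ, List.take_append_drop, List.take_append_drop]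
  have hMl : M.length = m + 1 := by
    rw [hM, List.length_take, List.length_drop, hlen]
    omega
  have hPQl : P.length + Q.length = 12 - (m + 1) := by
    have := congrArg List.length hr
    rw [hlen, List.length_append, List.length_append, hMl] at this
    omega
  have hb : b = Q.reverse ++ (M.reverse ++ P.reverse) := by
    have := congrArg List.reverse hr
    rw [List.reverse_reverse, List.reverse_append, List.reverse_append, List.append_assoc] at this
    exact this
  rw [← hM] at h4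
  unfold cls at h4
  rw [List.all_eq_true] at h4
  have hmemM : ∀ t ∈ M, t ∈ b := fun t ht => by
    rw [hb]
    simp [ht]
  have hmemPQ : ∀ t ∈ P.reverse ++ Q.reverse, t ∈ b := fun t ht => by
    rw [hb]
    simp only [List.mem_append, List.mem_reverse] at ht ⊢
    rcases ht with h | h
    · exact Or.inr (Or.inr h)
    · exact Or.inl h
  -- the rotation
  have hrot : (BL C b).rotate (BL C Q.reverse).length =
      BL C M.reverse ++ BL C (P.reverse ++ Q.reverse) := by
    rw [hb, BL_append, List.rotate_append_length_eq, BL_append, BL_append, List.append_assoc]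
  have hMne : ∃ t, t ∈ M := by
    have : M ≠ [] := by
      intro e
      rw [e] at hMl
      simp at hMl
    exact List.exists_mem_of_ne_nil _ this
  have hPQne : ∃ t, t ∈ P.reverse ++ Q.reverse := by
    have : P.reverse ++ Q.reverse ≠ [] := by
      intro e
      have := congrArg List.length e
      rw [List.length_append, List.length_reverse, List.length_reverse, hPQl,
        List.length_nil] at this
      omega
    exact List.exists_mem_of_ne_nil _ this
  obtain ⟨t0, ht0⟩ := hMne
  obtain ⟨t1, ht1⟩ := hPQne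
  obtain ⟨x, hx1, hx2⟩ := hS.kn.pr _ _ _ hrot
    (BL_ne (List.mem_reverse.2 ht0) (hcw.ne t0 (hmemM t0 ht0)))
    (BL_ne ht1 (hcw.ne t1 (hmemPQ t1 ht1)))
  obtain ⟨t, ht, hxt⟩ := mem_BL.1 hx1
  obtain ⟨t', ht', hxt'⟩ := mem_BL.1 hx2
  rw [List.mem_reverse] at ht
  have he : t.1 = t'.1 := by
    by_contra hne
    exact hcw.dj t (hmemM t ht) t' (hmemPQ t' ht') hne hxt hxt'
  have hc1 : (b.map Prod.fst).count t.1 = 2 :=
    hcw.tw t.1 (List.mem_map.2 ⟨t, hmemM t ht, rfl⟩)
  have hc2 : (M.map Prod.fst).count t.1 = 2 := by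
    have := h4 t ht
    rw [← cnt_eq]
    exact beq_iff_eq.1 this
  have hc3 : 1 ≤ ((P.reverse ++ Q.reverse).map Prod.fst).count t.1 := by
    rw [he]
    exact List.count_pos_iff.2 (List.mem_map.2 ⟨t', ht', rfl⟩)
  rw [hb] at hc1
  simp only [List.map_append, List.count_append, List.map_reverse, List.count_reverse] at hc1 hc3
  omega

end Pool.Agent.ACK.H77
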